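import Pool.Agent.H91.Distort

set_option autoImplicit false

open H91.Distort in
theorem Pool.Agent.Results.MP_084a52_an.NoMin.result :
    ∃ Ω Ω' : Set ℂ, (IsOpen Ω ∧ IsConnected Ω ∧ ¬ IsSimplyConnected Ω) ∧
      (IsOpen Ω' ∧ IsConnected Ω' ∧ ¬ IsSimplyConnected Ω') ∧ ∀ p : ℝ, 1 < p →
        (∃ g D, Adm Ω Ω' g D ∧ En p Ω D < ⊤) ∧
        ∀ f D, Adm Ω Ω' f D → ∃ h D', Adm Ω Ω' h D' ∧ En p Ω D' < En p Ω D :=
  main
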